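import Mathlib

/-!
# The exact range of the weak Delta-system principle

`InjFun κ` is the set `I(κ)` of all injections from an ordinal below `κ⁺` into `κ`. For a map `D`
which assigns to every `f ∈ I(κ)` a subset of its domain with fewer than `μ` elements we look for
`f_a ∈ I(κ)` (`a < κ⁺`) with strictly increasing domains such that the union of the restrictions of
`f_a` to `D(f_a)` is a function (`Delta κ μ`; the principle `Δ(κ)` is `Delta κ κ`), or such that
all `f_a` extend one `g ∈ I(κ)` and `D(f_b)` meets the domain of `f_a`, `a < b`, only inside the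
domain of `g`, where the domains may be prescribed up to an unbounded set (`Free κ μ`), or such
that moreover the sets `D(f_a)` form a Delta-system (`DeltaSystem κ μ`).

The first two hold exactly for `μ ≤ κ`, the last one exactly if `μ ≤ κ` and `κ ^ ν ≤ κ` for all
`ν < μ`.

The lemma `exists_good` and what precedes it is taken from the starting file `DeltaAll` of this
problem, with a prescribed unbounded set `U` of domains added.
-/

set_option autoImplicit false
open Cardinal Order Set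

universe u v w

namespace Pool.Agent.Results.MP_028983_lc.ExactRange

/-- The set `I(κ)`: an injection from an ordinal `dom < κ⁺` (the set of ordinals below `dom`)
into `κ` (the set of ordinals below the initial ordinal of `κ`). -/
structure InjFun (κ : Cardinal.{u}) where
  /-- the domain, an ordinal below `κ⁺` -/
  dom : Ordinal.{u}
  dom_lt : dom < (succ κ).ord
  /-- the function itself -/
  toFun : Set.Iio dom → Set.Iio κ.ord
  inj : Function.Injective toFun

/-- `D f` is a subset of the domain of `f` with fewer than `μ` elements, for every `f ∈ I(κ)`. -/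
def Small (κ μ : Cardinal.{u}) (D : InjFun κ → Set Ordinal.{u}) : Prop :=
  ∀ f, D f ⊆ Set.Iio f.dom ∧ #(D f) < Cardinal.lift.{u + 1} μ

/-- The domains of `F a`, `a < κ⁺`, are strictly increasing, and the union of the restrictions of
the functions `F a` to the sets `D (F a)` is a function. -/
def Coherent {κ : Cardinal.{u}} (D : InjFun κ → Set Ordinal.{u})
    (F : Set.Iio (succ κ).ord → InjFun κ) : Prop :=
  (∀ a b, a < b → (F a).dom < (F b).dom) ∧
  ∀ (a b : Set.Iio (succ κ).ord) (ξ : Ordinal.{u}) (ha : ξ < (F a).dom) (hb : ξ < (F b).dom),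
    ξ ∈ D (F a) → ξ ∈ D (F b) → (F a).toFun ⟨ξ, ha⟩ = (F b).toFun ⟨ξ, hb⟩

/-- The principle for sets with fewer than `μ` elements; `Delta κ κ` is the principle `Δ(κ)`. -/
def Delta (κ μ : Cardinal.{u}) : Prop :=
  ∀ D : InjFun κ → Set Ordinal.{u}, Small κ μ D → ∃ F, Coherent D F

/-- The free form: the domains of the functions are in an arbitrary prescribed unbounded subset
`U` of `κ⁺`, all functions extend one `g` in `I(κ)`, and for `a < b` the set `D (F b)` meets the
domain of `F a` only inside the domain of `g`. -/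
def Free (κ μ : Cardinal.{u}) : Prop :=
  ∀ U : Set Ordinal.{u}, (∀ δ < (succ κ).ord, ∃ τ ∈ U, δ < τ ∧ τ < (succ κ).ord) →
  ∀ D : InjFun κ → Set Ordinal.{u}, Small κ μ D →
    ∃ (g : InjFun κ) (F : Set.Iio (succ κ).ord → InjFun κ), Coherent D F ∧
      (∀ a, (F a).dom ∈ U) ∧
      (∀ a, g.dom < (F a).dom ∧ ∀ (ξ : Ordinal.{u}) (h : ξ < g.dom) (h' : ξ < (F a).dom),
        (F a).toFun ⟨ξ, h'⟩ = g.toFun ⟨ξ, h⟩) ∧
      ∀ a b, a < b → ∀ ξ ∈ D (F b), ξ < (F a).dom → ξ < g.dom

/-- The form with Delta-systems: moreover any two of the sets `D (F a)` have the same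
intersection. -/
def DeltaSystem (κ μ : Cardinal.{u}) : Prop :=
  ∀ D : InjFun κ → Set Ordinal.{u}, Small κ μ D →
    ∃ F, Coherent D F ∧ ∃ R : Set Ordinal.{u}, ∀ a b, a ≠ b → D (F a) ∩ D (F b) = R

/-- Transfinite dependent choice along a well-order. -/
lemma exists_seq {J : Type v} {X : Type w} [LinearOrder J] [WellFoundedLT J] [Nonempty X]
    (R : J → X → Prop) (S : X → X → Prop)
    (h : ∀ (j : J) (g : J → X), (∀ i < j, R i (g i)) → (∀ i i', i < i' → i' < j → S (g i) (g i')) →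
      ∃ x, R j x ∧ ∀ i < j, S (g i) x) :
    ∃ s : J → X, (∀ j, R j (s j)) ∧ ∀ i j, i < j → S (s i) (s j) := by
  classical
  let F : (j : J) → ((i : J) → i < j → X) → X := fun j prev =>
    if hx : ∃ x, R j x ∧ ∀ (i : J) (hi : i < j), S (prev i hi) x then hx.choose
    else Classical.arbitrary X
  let s : J → X := (wellFounded_lt (α := J)).fix F
  have hs : ∀ j, s j = F j (fun i _ => s i) := fun j => (wellFounded_lt (α := J)).fix_eq F j
  have key : ∀ j, R j (s j) ∧ ∀ i < j, S (s i) (s j) := by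
    intro j
    induction j using WellFoundedLT.induction with
    | ind j ih =>
      have hx : ∃ x, R j x ∧ ∀ (i : J) (_ : i < j), S (s i) x :=
        h j s (fun i hi => (ih i hi).1) (fun i i' hii hi' => (ih i' hi').2 i hii)
      have hsj : s j = hx.choose := by
        rw [hs]
        simp only [F]
        rw [dif_pos hx]
      rw [hsj]
      exact hx.choose_spec
  exact ⟨s, fun j => (key j).1, fun i j hij => (key j).2 i hij⟩

section Main

variable {κ : Cardinal.{u}}

/-- Total extension of a partial function, for convenience. -/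
noncomputable def ext (z : Set.Iio κ.ord) (f : InjFun κ) (ξ : Ordinal.{u}) : Set.Iio κ.ord := by
  classical exact if h : ξ < f.dom then f.toFun ⟨ξ, h⟩ else z

lemma ext_eq (z : Set.Iio κ.ord) (f : InjFun κ) {ξ : Ordinal.{u}} (h : ξ < f.dom) :
    ext z f ξ = f.toFun ⟨ξ, h⟩ := by
  unfold ext
  rw [dif_pos h]

lemma ext_inj (z : Set.Iio κ.ord) (f : InjFun κ) {ξ η : Ordinal.{u}} (h : ξ < f.dom)
    (h' : η < f.dom) (he : ext z f ξ = ext z f η) : ξ = η := by
  rw [ext_eq z f h, ext_eq z f h'] at he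
  exact congrArg Subtype.val (f.inj he)

/-- Build an element of `I(κ)` from a total function. -/
def ofFun (τ : Ordinal.{u}) (hτ : τ < (succ κ).ord) (G : Ordinal.{u} → Set.Iio κ.ord)
    (hG : ∀ ξ < τ, ∀ η < τ, G ξ = G η → ξ = η) : InjFun κ where
  dom := τ
  dom_lt := hτ
  toFun := fun ξ => G ξ.1
  inj := fun ξ η h => Subtype.ext (hG ξ.1 ξ.2 η.1 η.2 h)

/-- `g` is an initial segment of `f`. -/
def Ext (z : Set.Iio κ.ord) (g f : InjFun κ) : Prop :=
  g.dom ≤ f.dom ∧ ∀ ξ < g.dom, ext z f ξ = ext z g ξ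

/-- Families of `κ` ordinals below `κ⁺` are bounded. -/
lemma exists_bound (hκ : ℵ₀ ≤ κ) {ι : Type u} (hι : #ι ≤ κ) (f : ι → Ordinal.{u})
    (hf : ∀ i, f i < (succ κ).ord) : ∃ τ < (succ κ).ord, ∀ i, f i < τ := by
  have hreg : (succ κ).IsRegular := isRegular_succ hκ
  have h1 : iSup f < (succ κ).ord :=
    Ordinal.iSup_lt_of_lt_cof (by rw [hreg.cof_ord]; exact hι.trans_lt (lt_succ κ)) hf
  have hlim : Order.IsSuccLimit (succ κ).ord := Cardinal.isSuccLimit_ord (hκ.trans (le_succ κ))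
  exact ⟨succ (iSup f), hlim.succ_lt h1, fun i => lt_succ_iff.2 (Ordinal.le_iSup f i)⟩

/-- There is an injection `g` such that arbitrarily long extensions `f` of `g` have the part of
`D f` below an arbitrarily large ordinal inside the domain of `g`. -/
lemma exists_good (hκ : ℵ₀ ≤ κ) (U : Set Ordinal.{u})
    (hU : ∀ δ < (succ κ).ord, ∃ τ ∈ U, δ < τ ∧ τ < (succ κ).ord)
    (D : InjFun κ → Set Ordinal.{u})
    (hD : ∀ f, #(D f) < Cardinal.lift.{u + 1} κ) (z : Set.Iio κ.ord) :
    ∃ g : InjFun κ, ∀ δ < (succ κ).ord, ∃ f, Ext z g f ∧ δ < f.dom ∧ f.dom ∈ U ∧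
      ∀ ξ ∈ D f, ξ < δ → ξ < g.dom := by
  classical
  by_contra hcon
  push Not at hcon
  choose δ hδ1 hδ2 using hcon
  have hΩ : (0 : Ordinal.{u}) < (succ κ).ord := by
    rw [Cardinal.lt_ord, Ordinal.card_zero]
    exact (aleph0_pos.trans_le hκ).trans (lt_succ κ)
  let K : Type u := κ.ord.ToType
  have hK : #K = κ := Cardinal.mk_ord_toType _
  let J : Type u := WithTop K
  have hJ : #J ≤ κ := by
    show #(Option K) ≤ κ
    rw [Cardinal.mk_option, hK]
    exact (Cardinal.add_one_eq hκ).le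
  obtain ⟨p⟩ : Nonempty (J × K ↪ Set.Iio κ.ord) := by
    rw [← Cardinal.lift_mk_le'.{u, u + 1}, Cardinal.mk_Iio_ordinal, Cardinal.card_ord]
    have h1 : #(J × K) ≤ κ := by
      rw [Cardinal.mk_prod, Cardinal.lift_id, Cardinal.lift_id, hK]
      exact (mul_le_mul' hJ le_rfl).trans (Cardinal.mul_eq_self hκ).le
    have h2 : Cardinal.lift.{u + 1, u} #(J × K) ≤ Cardinal.lift.{u + 1, u} κ :=
      Cardinal.lift_le.2 h1
    simpa using h2
  have he : ∀ τ : Ordinal.{u}, τ < (succ κ).ord →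
      ∃ e : Ordinal.{u} → K, ∀ ξ < τ, ∀ η < τ, e ξ = e η → ξ = η := by
    intro τ hτ
    have hcard : τ.card ≤ κ := by
      rw [Cardinal.lt_ord] at hτ
      exact lt_succ_iff.1 hτ
    obtain ⟨q⟩ : Nonempty (Set.Iio τ ↪ K) := by
      rw [← Cardinal.lift_mk_le'.{u + 1, u}, Cardinal.mk_Iio_ordinal, hK]
      have h2 : Cardinal.lift.{u + 1, u} τ.card ≤ Cardinal.lift.{u + 1, u} κ :=
        Cardinal.lift_le.2 hcard
      simpa using h2
    have hKne : Nonempty K := by
      rw [← Cardinal.mk_ne_zero_iff, hK]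
      exact (aleph0_pos.trans_le hκ).ne'
    refine ⟨fun ξ => if h : ξ < τ then q ⟨ξ, h⟩ else Classical.arbitrary K, ?_⟩
    intro ξ hξ η hη h
    simp only [dif_pos hξ, dif_pos hη] at h
    exact congrArg Subtype.val (q.injective h)
  choose e he using he
  have hX : Nonempty (InjFun κ) :=
    ⟨ofFun 0 hΩ (fun _ => z) (fun ξ hξ => absurd hξ not_lt_zero)⟩
  obtain ⟨s, -, hs⟩ := exists_seq (J := J) (X := InjFun κ)
    (R := fun j x => ∀ ζ < x.dom, ∃ i ≤ j, ∃ c, ext z x ζ = p (i, c))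
    (S := fun g x => Ext z g x ∧ δ g < x.dom ∧ x.dom ∈ U) (by
      intro j g hR hS
      obtain ⟨τ₀, hτ₀, hτb₀⟩ := exists_bound hκ hJ
        (fun i => if i < j then max (g i).dom (δ (g i)) else 0) (by
          intro i
          show (if i < j then max (g i).dom (δ (g i)) else 0) < (succ κ).ord
          split_ifs
          · exact max_lt (g i).dom_lt (hδ1 (g i))
          · exact hΩ)
      obtain ⟨τ, hτU, hτ₁, hτ⟩ := hU τ₀ hτ₀
      have hτb := fun i => (hτb₀ i).trans hτ₁
      have hb1 : ∀ i < j, (g i).dom < τ ∧ δ (g i) < τ := by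
        intro i hi
        have := hτb i
        simp only [if_pos hi] at this
        exact max_lt_iff.1 this
      let G : Ordinal.{u} → Set.Iio κ.ord := fun ζ =>
        if h : ∃ i, i < j ∧ ζ < (g i).dom then ext z (g h.choose) ζ else p (j, e τ hτ ζ)
      have hGold : ∀ i < j, ∀ ζ < (g i).dom, G ζ = ext z (g i) ζ := by
        intro i hi ζ hζ
        have hex : ∃ i, i < j ∧ ζ < (g i).dom := ⟨i, hi, hζ⟩
        have h1 : G ζ = ext z (g hex.choose) ζ := by
          simp only [G]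
          rw [dif_pos hex]
        rw [h1]
        obtain ⟨h2, h3⟩ := hex.choose_spec
        rcases lt_trichotomy i hex.choose with h | h | h
        · exact (hS _ _ h h2).1.2 ζ hζ
        · rw [← h]
        · exact ((hS _ _ h hi).1.2 ζ h3).symm
      have hGnew : ∀ ζ, (¬ ∃ i, i < j ∧ ζ < (g i).dom) → G ζ = p (j, e τ hτ ζ) := by
        intro ζ hζ
        simp only [G]
        rw [dif_neg hζ]
      have hGinj : ∀ ξ < τ, ∀ η < τ, G ξ = G η → ξ = η := by
        intro ξ hξ η hη hGG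
        by_cases h1 : ∃ i, i < j ∧ ξ < (g i).dom
        · obtain ⟨i, hi, hξi⟩ := h1
          by_cases h2 : ∃ i, i < j ∧ η < (g i).dom
          · obtain ⟨i', hi', hηi⟩ := h2
            -- use the larger index
            rcases lt_trichotomy i i' with h | h | h
            · have hle := (hS i i' h hi').1.1
              rw [hGold i' hi' ξ (hξi.trans_le hle), hGold i' hi' η hηi] at hGG
              exact ext_inj z (g i') (hξi.trans_le hle) hηi hGG
            · subst h
              rw [hGold i hi ξ hξi, hGold i hi η hηi] at hGG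
              exact ext_inj z (g i) hξi hηi hGG
            · have hle := (hS i' i h hi).1.1
              rw [hGold i hi ξ hξi, hGold i hi η (hηi.trans_le hle)] at hGG
              exact ext_inj z (g i) hξi (hηi.trans_le hle) hGG
          · rw [hGold i hi ξ hξi, hGnew η h2] at hGG
            obtain ⟨i', hi', c, hc⟩ := hR i hi ξ hξi
            rw [hc] at hGG
            have := (Prod.ext_iff.1 (p.injective hGG)).1
            simp only at this
            exact absurd (hi'.trans_lt hi) (by rw [this]; exact lt_irrefl j)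
        · by_cases h2 : ∃ i, i < j ∧ η < (g i).dom
          · obtain ⟨i, hi, hηi⟩ := h2
            rw [hGold i hi η hηi, hGnew ξ h1] at hGG
            obtain ⟨i', hi', c, hc⟩ := hR i hi η hηi
            rw [hc] at hGG
            have := (Prod.ext_iff.1 (p.injective hGG)).1
            simp only at this
            exact absurd (hi'.trans_lt hi) (by rw [← this]; exact lt_irrefl j)
          · rw [hGnew ξ h1, hGnew η h2] at hGG
            have := (Prod.ext_iff.1 (p.injective hGG)).2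
            exact he τ hτ ξ hξ η hη this
      have hext : ∀ ζ < τ, ext z (ofFun τ hτ G hGinj) ζ = G ζ := by
        intro ζ hζ
        exact ext_eq z (ofFun τ hτ G hGinj) hζ
      refine ⟨ofFun τ hτ G hGinj, ?_, ?_⟩
      · intro ζ hζ
        rw [hext ζ hζ]
        by_cases h1 : ∃ i, i < j ∧ ζ < (g i).dom
        · obtain ⟨i, hi, hζi⟩ := h1
          rw [hGold i hi ζ hζi]
          obtain ⟨i', hi', c, hc⟩ := hR i hi ζ hζi
          exact ⟨i', hi'.trans hi.le, c, hc⟩
        · exact ⟨j, le_rfl, _, hGnew ζ h1⟩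
      · intro i hi
        refine ⟨⟨(hb1 i hi).1.le, ?_⟩, (hb1 i hi).2, hτU⟩
        intro ζ hζ
        rw [hext ζ (hζ.trans (hb1 i hi).1)]
        exact hGold i hi ζ hζ)
  -- every level below the top contributes a new point of `D (s ⊤)`
  have htop : ∀ k : K, ∃ ξ ∈ D (s ⊤), ξ < δ (s (k : WithTop K)) ∧ (s (k : WithTop K)).dom ≤ ξ := by
    intro k
    obtain ⟨h1, h2, h2'⟩ := hs (k : WithTop K) ⊤ (WithTop.coe_lt_top k)
    obtain ⟨ξ, h3, h4, h5⟩ := hδ2 (s (k : WithTop K)) (s ⊤) h1 h2 h2'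
    exact ⟨ξ, h3, h4, h5⟩
  choose ξ hξD hξ1 hξ2 using htop
  have hmono : ∀ k k' : K, k < k' → ξ k < ξ k' := by
    intro k k' hkk
    have h1 := (hs (k : WithTop K) (k' : WithTop K) (WithTop.coe_lt_coe.2 hkk)).2.1
    exact (hξ1 k).trans (h1.trans_le (hξ2 k'))
  have hinj : Function.Injective (fun k : K => (⟨ξ k, hξD k⟩ : D (s ⊤))) := by
    intro k k' h
    have h0 : ξ k = ξ k' := congrArg Subtype.val h
    rcases lt_trichotomy k k' with h1 | h1 | h1
    · exact absurd h0 (hmono k k' h1).ne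
    · exact h1
    · exact absurd h0.symm (hmono k' k h1).ne
  have hle := Cardinal.lift_mk_le_lift_mk_of_injective hinj
  rw [hK] at hle
  have h1 := hD (s ⊤)
  have h2 : Cardinal.lift.{u + 1} κ ≤ #(D (s ⊤)) := by
    rw [Cardinal.lift_id'.{u, u + 1}] at hle
    exact hle
  exact absurd h1 (not_lt.2 h2)

/-- Auxiliary recursion: ordinals growing faster than `h`. -/
noncomputable def aseq (h : Ordinal.{u} → Ordinal.{u}) (α : Ordinal.{u}) : Ordinal.{u} :=
  ⨆ i : α.ToType, succ (h (aseq h (Ordinal.ToType.toOrd i).1))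
termination_by α
decreasing_by exact (Ordinal.ToType.toOrd i).2

lemma aseq_lt (h : Ordinal.{u} → Ordinal.{u}) {α β : Ordinal.{u}} (hβ : β < α) :
    h (aseq h β) < aseq h α := by
  rw [aseq.eq_1 h α, Ordinal.lt_iSup_iff]
  refine ⟨Ordinal.ToType.mk ⟨β, hβ⟩, ?_⟩
  simp

lemma aseq_lt_ord (hκ : ℵ₀ ≤ κ) (h : Ordinal.{u} → Ordinal.{u})
    (hh : ∀ δ < (succ κ).ord, h δ < (succ κ).ord) (α : Ordinal.{u}) (hα : α < (succ κ).ord) :
    aseq h α < (succ κ).ord := by
  induction α using WellFoundedLT.induction with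
  | ind α ih =>
    rw [aseq.eq_1 h α]
    have hreg : (succ κ).IsRegular := isRegular_succ hκ
    have hlim : Order.IsSuccLimit (succ κ).ord := Cardinal.isSuccLimit_ord (hκ.trans (le_succ κ))
    apply Ordinal.iSup_lt_of_lt_cof
    · rw [hreg.cof_ord, Cardinal.mk_toType]
      rw [Cardinal.lt_ord] at hα
      exact hα
    · intro i
      apply hlim.succ_lt
      apply hh
      have hi := (Ordinal.ToType.toOrd i).2
      exact ih _ hi (lt_trans hi hα)

end Main


/-- The free form holds for `μ = κ`. -/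
theorem free_self {κ : Cardinal.{u}} (hκ : ℵ₀ ≤ κ) : Free κ κ := by
  classical
  intro U hU D hD
  have hκ0 : (0 : Ordinal.{u}) < κ.ord := by
    rw [Cardinal.lt_ord, Ordinal.card_zero]
    exact aleph0_pos.trans_le hκ
  let z : Set.Iio κ.ord := ⟨0, hκ0⟩
  obtain ⟨g, hg'⟩ := exists_good hκ U hU D (fun f => (hD f).2) z
  have hg : ∀ δ < (succ κ).ord, ∃ f, Ext z g f ∧ (g.dom < f.dom ∧ δ < f.dom) ∧ f.dom ∈ U ∧
      ∀ ξ ∈ D f, ξ < δ → ξ < g.dom := by
    intro δ hδ
    obtain ⟨f, h1, h2, h3, h4⟩ := hg' (max g.dom δ) (max_lt g.dom_lt hδ)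
    exact ⟨f, h1, max_lt_iff.1 h2, h3, fun ξ hξ hξδ => h4 ξ hξ (hξδ.trans_le (le_max_right _ _))⟩
  choose f hf1 hf2 hfU hf3 using hg
  let h : Ordinal.{u} → Ordinal.{u} := fun δ =>
    if hδ : δ < (succ κ).ord then (f δ hδ).dom else 0
  have hh : ∀ δ < (succ κ).ord, h δ < (succ κ).ord := by
    intro δ hδ
    simp only [h]
    rw [dif_pos hδ]
    exact (f δ hδ).dom_lt
  have ha : ∀ a : Set.Iio (succ κ).ord, aseq h a.1 < (succ κ).ord :=
    fun a => aseq_lt_ord hκ h hh a.1 a.2
  let F : Set.Iio (succ κ).ord → InjFun κ := fun a => f (aseq h a.1) (ha a)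
  have hFdom : ∀ a : Set.Iio (succ κ).ord, (F a).dom = h (aseq h a.1) := by
    intro a
    simp only [F, h]
    rw [dif_pos (ha a)]
  have hstep : ∀ a b : Set.Iio (succ κ).ord, a < b → (F a).dom < aseq h b.1 := by
    intro a b hab
    rw [hFdom]
    exact aseq_lt h hab
  have hfree : ∀ a b, a < b → ∀ ξ ∈ D (F b), ξ < (F a).dom → ξ < g.dom := by
    intro a b hab ξ hξ hξa
    exact hf3 _ (ha b) ξ hξ (hξa.trans (hstep a b hab))
  have hext : ∀ a, ∀ (ξ : Ordinal.{u}) (h : ξ < g.dom) (h' : ξ < (F a).dom),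
      (F a).toFun ⟨ξ, h'⟩ = g.toFun ⟨ξ, h⟩ := by
    intro a ξ h1 h2
    rw [← ext_eq z (F a) h2, ← ext_eq z g h1]
    exact (hf1 _ (ha a)).2 ξ h1
  have key : ∀ (a b : Set.Iio (succ κ).ord) (ξ : Ordinal.{u}) (ha : ξ < (F a).dom)
      (hb : ξ < (F b).dom), a < b → ξ ∈ D (F b) →
      (F a).toFun ⟨ξ, ha⟩ = (F b).toFun ⟨ξ, hb⟩ := by
    intro a b ξ hξa hξb hab hξD
    have h1 : ξ < g.dom := hfree a b hab ξ hξD hξa
    rw [hext a ξ h1 hξa, hext b ξ h1 hξb]
  refine ⟨g, F, ⟨?_, ?_⟩, fun a => hfU _ (ha a), fun a => ⟨(hf2 _ (ha a)).1, hext a⟩, hfree⟩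
  · intro a b hab
    exact (hstep a b hab).trans (hf2 _ (ha b)).2
  · intro a b ξ hξa hξb hDa hDb
    rcases lt_trichotomy a b with hab | hab | hab
    · exact key a b ξ hξa hξb hab hDb
    · subst hab
      rfl
    · exact (key b a ξ hξb hξa hab hDa).symm

theorem Small.mono {κ μ ν : Cardinal.{u}} (h : μ ≤ ν) {D : InjFun κ → Set Ordinal.{u}}
    (hD : Small κ μ D) : Small κ ν D :=
  fun f => ⟨(hD f).1, (hD f).2.trans_le (Cardinal.lift_le.2 h)⟩

theorem Free.mono {κ μ ν : Cardinal.{u}} (h : μ ≤ ν) (hF : Free κ ν) : Free κ μ :=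
  fun U hU D hD => hF U hU D (hD.mono h)

theorem Free.delta {κ μ : Cardinal.{u}} (hκ : ℵ₀ ≤ κ) (hF : Free κ μ) : Delta κ μ := by
  intro D hD
  have hlim : Order.IsSuccLimit (succ κ).ord := Cardinal.isSuccLimit_ord (hκ.trans (le_succ κ))
  obtain ⟨g, F, h, -⟩ := hF Set.univ
    (fun δ hδ => ⟨succ δ, Set.mem_univ _, lt_succ δ, hlim.succ_lt hδ⟩) D hD
  exact ⟨F, h⟩

/-- Strictly increasing maps on `κ⁺` are at least the identity. -/
theorem le_dom {κ : Cardinal.{u}} {F : Set.Iio (succ κ).ord → InjFun κ}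
    (h : ∀ a b, a < b → (F a).dom < (F b).dom) (a : Set.Iio (succ κ).ord) :
    a.1 ≤ (F a).dom := by
  obtain ⟨a, ha⟩ := a
  induction a using WellFoundedLT.induction with
  | ind a ih =>
    by_contra hlt
    push Not at hlt
    have h1 := ih (F ⟨a, ha⟩).dom hlt (hlt.trans ha)
    have h2 := h ⟨(F ⟨a, ha⟩).dom, hlt.trans ha⟩ ⟨a, ha⟩ hlt
    exact absurd h1 (not_le.2 h2)

/-- The principle fails if `D f` may have `κ` elements. -/
theorem not_delta {κ μ : Cardinal.{u}} (hκ : ℵ₀ ≤ κ) (hμ : κ < μ) : ¬ Delta κ μ := by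
  intro hdel
  have hlim : Order.IsSuccLimit (succ κ).ord := Cardinal.isSuccLimit_ord (hκ.trans (le_succ κ))
  obtain ⟨F, h1, h2⟩ := hdel (fun f => Set.Iio f.dom) (by
    intro f
    refine ⟨subset_rfl, ?_⟩
    show #(Set.Iio f.dom) < _
    rw [Cardinal.mk_Iio_ordinal, Cardinal.lift_lt]
    have := f.dom_lt
    rw [Cardinal.lt_ord] at this
    exact (lt_succ_iff.1 this).trans_lt hμ)
  let nx : Set.Iio (succ κ).ord → Set.Iio (succ κ).ord := fun a => ⟨succ a.1, hlim.succ_lt a.2⟩
  have hnx : ∀ a : Set.Iio (succ κ).ord, a.1 < (F (nx a)).dom := fun a =>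
    (lt_succ a.1).trans_le (le_dom h1 (nx a))
  let Φ : Set.Iio (succ κ).ord → Set.Iio κ.ord := fun a => (F (nx a)).toFun ⟨a.1, hnx a⟩
  have hΦ : ∀ a b : Set.Iio (succ κ).ord, ∀ (h : a.1 < (F b).dom),
      Φ a = (F b).toFun ⟨a.1, h⟩ := fun a b h => h2 (nx a) b a.1 (hnx a) h (hnx a) h
  have hinj : Function.Injective Φ := by
    intro a b hab
    have ha : a.1 < (F (nx (max a b))).dom :=
      lt_of_le_of_lt (le_max_left a b : a ≤ max a b) (hnx (max a b))
    have hb : b.1 < (F (nx (max a b))).dom :=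
      lt_of_le_of_lt (le_max_right a b : b ≤ max a b) (hnx (max a b))
    rw [hΦ a _ ha, hΦ b _ hb] at hab
    have h3 := (F (nx (max a b))).inj hab
    have h4 : a.1 = b.1 := Subtype.mk.inj h3
    exact Subtype.ext h4
  have hle := Cardinal.mk_le_of_injective hinj
  rw [Cardinal.mk_Iio_ordinal, Cardinal.mk_Iio_ordinal, Cardinal.lift_le, Cardinal.card_ord,
    Cardinal.card_ord] at hle
  exact absurd (lt_succ κ) (not_lt.2 hle)

/-- If `κ < κ ^ ν` for some `ν < μ`, `ν ≤ κ`, then the form with Delta-systems fails. -/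
theorem not_deltaSystem {κ μ ν : Cardinal.{u}} (hκ : ℵ₀ ≤ κ) (hν : ν < μ) (hνκ : ν ≤ κ)
    (hpow : κ < κ ^ ν) : ¬ DeltaSystem κ μ := by
  classical
  intro hdel
  let N : Type u := ν.out
  have hN : #N = ν := Cardinal.mk_out ν
  let K : Type u := κ.out
  have hK : #K = κ := Cardinal.mk_out κ
  obtain ⟨c⟩ : Nonempty (Set.Iio (succ κ).ord ↪ (N → K)) := by
    rw [← Cardinal.lift_mk_le'.{u + 1, u}, Cardinal.mk_Iio_ordinal, Cardinal.card_ord]
    have h1 : succ κ ≤ #(N → K) := by
      rw [← Cardinal.power_def, hK, hN]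
      exact succ_le_of_lt hpow
    have h2 : Cardinal.lift.{u + 1, u} (succ κ) ≤ Cardinal.lift.{u + 1, u} #(N → K) :=
      Cardinal.lift_le.2 h1
    simpa using h2
  obtain ⟨p⟩ : Nonempty (N × K ↪ Set.Iio κ.ord) := by
    rw [← Cardinal.lift_mk_le'.{u, u + 1}, Cardinal.mk_Iio_ordinal, Cardinal.card_ord]
    have h1 : #(N × K) ≤ κ := by
      rw [Cardinal.mk_prod, Cardinal.lift_id, Cardinal.lift_id, hK, hN]
      exact (mul_le_mul' hνκ le_rfl).trans (Cardinal.mul_eq_self hκ).le
    have h2 : Cardinal.lift.{u + 1, u} #(N × K) ≤ Cardinal.lift.{u + 1, u} κ :=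
      Cardinal.lift_le.2 h1
    simpa using h2
  let A : Set.Iio (succ κ).ord → Set Ordinal.{u} := fun a =>
    Set.range (fun n : N => (p (n, c a n)).1)
  have hAsub : ∀ a, A a ⊆ Set.Iio κ.ord := by
    rintro a _ ⟨n, rfl⟩
    exact (p (n, c a n)).2
  have hAinj : ∀ a b, A a = A b → a = b := by
    intro a b hab
    apply c.injective
    funext n
    have h1 : (p (n, c a n)).1 ∈ A b := by rw [← hab]; exact ⟨n, rfl⟩
    obtain ⟨m, hm⟩ := h1
    have h2 := Prod.ext_iff.1 (p.injective (Subtype.ext hm))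
    have h3 : m = n := h2.1
    have h4 : c b m = c a n := h2.2
    rw [← h4, h3]
  have hAcard : ∀ a, #(A a) < Cardinal.lift.{u + 1} μ := by
    intro a
    have h1 := Cardinal.mk_range_le_lift (f := fun n : N => (p (n, c a n)).1)
    rw [hN, Cardinal.lift_id'.{u, u + 1}] at h1
    exact h1.trans_lt (Cardinal.lift_lt.2 hν)
  obtain ⟨F, ⟨h1, -⟩, R, hR⟩ := hdel
    (fun f => if κ.ord ≤ f.dom then A ⟨f.dom, f.dom_lt⟩ else ∅) (by
      intro f
      dsimp only
      split_ifs with h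
      · exact ⟨fun ξ hξ => lt_of_lt_of_le (hAsub _ hξ) h, hAcard _⟩
      · refine ⟨Set.empty_subset _, ?_⟩
        rw [Cardinal.mk_eq_zero, ← Cardinal.lift_zero.{u, u + 1}]
        exact Cardinal.lift_lt.2 (lt_of_le_of_lt zero_le hν))
  have hprin := Ordinal.isPrincipal_add_ord (hκ.trans (le_succ κ))
  have hκlt : κ.ord < (succ κ).ord := Cardinal.ord_lt_ord.2 (lt_succ κ)
  let θ : Set.Iio (succ κ).ord → Set.Iio (succ κ).ord := fun a =>
    ⟨κ.ord + a.1, hprin hκlt a.2⟩
  have hθinj : ∀ a b, θ a = θ b → a = b := by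
    intro a b hab
    have : κ.ord + a.1 = κ.ord + b.1 := congrArg Subtype.val hab
    exact Subtype.ext (add_left_cancel this)
  have hθ : ∀ a, κ.ord ≤ (F (θ a)).dom := fun a =>
    (le_self_add : κ.ord ≤ κ.ord + a.1).trans (le_dom h1 (θ a))
  let B : Set.Iio (succ κ).ord → Set Ordinal.{u} := fun a =>
    A ⟨(F (θ a)).dom, (F (θ a)).dom_lt⟩
  have hB : ∀ a b, a ≠ b → B a ∩ B b = R := by
    intro a b hab
    have := hR (θ a) (θ b) (fun h => hab (hθinj a b h))
    simpa only [if_pos (hθ a), if_pos (hθ b)] using this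
  have hBne : ∀ a b, a ≠ b → B a ≠ B b := by
    intro a b hab h
    have h2 := congrArg Subtype.val (hAinj _ _ h)
    have h3 : (F (θ a)).dom = (F (θ b)).dom := h2
    rcases lt_or_gt_of_ne (fun h => hab (hθinj a b h) : θ a ≠ θ b) with h4 | h4
    · exact absurd h3 (h1 _ _ h4).ne
    · exact absurd h3 (h1 _ _ h4).ne'
  let Ψ : Set.Iio (succ κ).ord → Option (Set.Iio κ.ord) := fun a =>
    if h : ∃ x, x ∈ B a ∧ x ∉ R then some ⟨h.choose, hAsub _ h.choose_spec.1⟩ else none
  have hΨ : Function.Injective Ψ := by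
    intro a b hab
    by_contra hne
    have hRa : R ⊆ B a := by rw [← hB a b hne]; exact Set.inter_subset_left
    have hRb : R ⊆ B b := by rw [← hB a b hne]; exact Set.inter_subset_right
    by_cases ha : ∃ x, x ∈ B a ∧ x ∉ R
    · by_cases hb : ∃ x, x ∈ B b ∧ x ∉ R
      · simp only [Ψ, dif_pos ha, dif_pos hb, Option.some.injEq, Subtype.mk.injEq] at hab
        have h5 : ha.choose ∈ B b := hab.symm ▸ hb.choose_spec.1
        have h6 : ha.choose ∈ B a ∩ B b := ⟨ha.choose_spec.1, h5⟩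
        exact ha.choose_spec.2 ((hB a b hne).subset h6)
      · simp only [Ψ, dif_pos ha, dif_neg hb] at hab
        exact absurd hab (Option.some_ne_none _)
    · by_cases hb : ∃ x, x ∈ B b ∧ x ∉ R
      · simp only [Ψ, dif_neg ha, dif_pos hb] at hab
        exact absurd hab.symm (Option.some_ne_none _)
      · push Not at ha hb
        exact hBne a b hne ((Set.Subset.antisymm ha hRa).trans (Set.Subset.antisymm hb hRb).symm)
  have hle := Cardinal.mk_le_of_injective hΨ
  rw [Cardinal.mk_option, Cardinal.mk_Iio_ordinal, Cardinal.mk_Iio_ordinal, Cardinal.card_ord,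
    Cardinal.card_ord, Cardinal.add_one_eq (Cardinal.aleph0_le_lift.2 hκ), Cardinal.lift_le] at hle
  exact absurd (lt_succ κ) (not_lt.2 hle)

/-- The number of subsets with fewer than `μ` elements. -/
theorem card_small {κ μ : Cardinal.{u}} (hκ : ℵ₀ ≤ κ) (hμ : μ ≤ κ) (hpow : κ ^< μ ≤ κ)
    {α : Type u} (hα : #α ≤ κ) : #{S : Set α // #S < μ} ≤ κ := by
  let Y : μ.ord.ToType → Type u := fun i =>
    {S : Set α // #S ≤ (Ordinal.ToType.toOrd i).1.card}
  let e : {S : Set α // #S < μ} → Σ i : μ.ord.ToType, Y i := fun S =>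
    ⟨Ordinal.ToType.mk ⟨(#S.1).ord, Cardinal.ord_lt_ord.2 S.2⟩, S.1, by simp⟩
  have he : Function.Injective e := by
    intro S S' h
    have h1 : (e S).2.1 = (e S').2.1 := by rw [h]
    exact Subtype.ext h1
  have h1 := Cardinal.mk_le_of_injective he
  refine h1.trans ?_
  rw [Cardinal.mk_sigma]
  calc Cardinal.sum (fun i => #(Y i)) ≤ Cardinal.sum (fun _ : μ.ord.ToType => κ) := by
        apply Cardinal.sum_le_sum
        intro i
        refine (Cardinal.mk_bounded_set_le α _).trans ?_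
        have hi : (Ordinal.ToType.toOrd i).1.card < μ :=
          Cardinal.lt_ord.1 (Ordinal.ToType.toOrd i).2
        exact ((Cardinal.power_le_power_right (max_le hα hκ)).trans
          (Cardinal.le_powerlt κ hi)).trans hpow
    _ = #(μ.ord.ToType) * κ := by rw [Cardinal.sum_const']
    _ ≤ κ := by
        rw [Cardinal.mk_ord_toType]
        exact (mul_le_mul' hμ le_rfl).trans (Cardinal.mul_eq_self hκ).le

/-- The form with Delta-systems holds if `μ ≤ κ` and `κ ^ ν ≤ κ` for all `ν < μ`. -/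
theorem deltaSystem_of {κ μ : Cardinal.{u}} (hκ : ℵ₀ ≤ κ) (hμ : μ ≤ κ) (hpow : κ ^< μ ≤ κ) :
    DeltaSystem κ μ := by
  classical
  intro D hD
  have hlim : Order.IsSuccLimit (succ κ).ord := Cardinal.isSuccLimit_ord (hκ.trans (le_succ κ))
  obtain ⟨g, F, hc, -, hg, hfree⟩ := (free_self hκ).mono hμ Set.univ
    (fun δ hδ => ⟨succ δ, Set.mem_univ _, lt_succ δ, hlim.succ_lt hδ⟩) D hD
  let T : Type u := (succ κ).ord.ToType
  have hT : #T = succ κ := Cardinal.mk_ord_toType _
  let α : Type u := g.dom.ToType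
  have hα : #α ≤ κ := by
    show #(g.dom.ToType) ≤ κ
    rw [Cardinal.mk_toType]
    have := g.dom_lt
    rw [Cardinal.lt_ord] at this
    exact lt_succ_iff.1 this
  let V : Set.Iio (succ κ).ord → Set α := fun a =>
    {x | (Ordinal.ToType.toOrd x).1 ∈ D (F a)}
  have hV : ∀ a, #(V a) < μ := by
    intro a
    have hinj : Function.Injective
        (fun x : V a => (⟨(Ordinal.ToType.toOrd x.1).1, x.2⟩ : D (F a))) := by
      intro x y h
      have h1 : (Ordinal.ToType.toOrd x.1).1 = (Ordinal.ToType.toOrd y.1).1 :=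
        Subtype.mk.inj h
      exact Subtype.ext (Ordinal.ToType.mk.symm.injective (Subtype.ext h1))
    have h1 := Cardinal.lift_mk_le_lift_mk_of_injective hinj
    rw [Cardinal.lift_id'.{u, u + 1}] at h1
    exact Cardinal.lift_lt.1 (h1.trans_lt (hD (F a)).2)
  let φ : T → {S : Set α // #S < μ} := fun t => ⟨V (Ordinal.ToType.toOrd t), hV _⟩
  obtain ⟨S, hS⟩ := Cardinal.infinite_pigeonhole φ (by rw [hT]; exact hκ.trans (le_succ κ)) (by
    rw [hT, (isRegular_succ hκ).cof_ord]
    exact (card_small hκ hμ hpow hα).trans_lt (lt_succ κ))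
  rw [hT] at hS
  have hunb : ∀ δ < (succ κ).ord, ∃ a : Set.Iio (succ κ).ord, δ < a.1 ∧ V a = S.1 := by
    intro δ hδ
    by_contra hcon
    push Not at hcon
    have hsub : ∀ t : (φ ⁻¹' {S}), (Ordinal.ToType.toOrd t.1).1 < succ δ := by
      intro t
      rw [lt_succ_iff]
      by_contra hlt
      push Not at hlt
      refine hcon _ hlt ?_
      have := t.2
      rw [Set.mem_preimage, Set.mem_singleton_iff] at this
      exact congrArg Subtype.val this
    have hinj : Function.Injective (fun t : (φ ⁻¹' {S}) =>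
        (⟨(Ordinal.ToType.toOrd t.1).1, hsub t⟩ : Set.Iio (succ δ))) := by
      intro x y h
      have h1 : (Ordinal.ToType.toOrd x.1).1 = (Ordinal.ToType.toOrd y.1).1 :=
        Subtype.mk.inj h
      exact Subtype.ext (Ordinal.ToType.mk.symm.injective (Subtype.ext h1))
    have h1 := Cardinal.lift_mk_le_lift_mk_of_injective hinj
    rw [hS, Cardinal.mk_Iio_ordinal, Cardinal.lift_id'.{u, u + 1}, Cardinal.lift_le] at h1
    have h2 := hlim.succ_lt hδ
    rw [Cardinal.lt_ord] at h2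
    exact absurd h2 (not_lt.2 h1)
  choose nx hnx1 hnx2 using hunb
  let h : Ordinal.{u} → Ordinal.{u} := fun δ =>
    if hδ : δ < (succ κ).ord then (nx δ hδ).1 else 0
  have hh : ∀ δ < (succ κ).ord, h δ < (succ κ).ord := by
    intro δ hδ
    simp only [h]
    rw [dif_pos hδ]
    exact (nx δ hδ).2
  have ha : ∀ a : Set.Iio (succ κ).ord, aseq h a.1 < (succ κ).ord :=
    fun a => aseq_lt_ord hκ h hh a.1 a.2
  let t : Set.Iio (succ κ).ord → Set.Iio (succ κ).ord := fun a => nx (aseq h a.1) (ha a)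
  have ht : ∀ a b, a < b → t a < t b := by
    intro a b hab
    have h1 : (t a).1 = h (aseq h a.1) := by
      simp only [t, h]
      rw [dif_pos (ha a)]
    have h2 : (t a).1 < aseq h b.1 := by
      rw [h1]
      exact aseq_lt h hab
    exact h2.trans (hnx1 _ (ha b))
  have htV : ∀ a, V (t a) = S.1 := fun a => hnx2 _ (ha a)
  refine ⟨fun a => F (t a), ⟨fun a b hab => hc.1 _ _ (ht a b hab),
    fun a b ξ h1 h2 h3 h4 => hc.2 _ _ ξ h1 h2 h3 h4⟩,
    {ξ | ∃ x ∈ S.1, ξ = (Ordinal.ToType.toOrd x).1}, ?_⟩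
  have key : ∀ a b, t a < t b → ∀ ξ, ξ ∈ D (F (t a)) → ξ ∈ D (F (t b)) →
      ∃ x ∈ S.1, ξ = (Ordinal.ToType.toOrd x).1 := by
    intro a b hab ξ h1 h2
    have h3 : ξ < g.dom := hfree _ _ hab ξ h2 ((hD _).1 h1)
    refine ⟨Ordinal.ToType.mk ⟨ξ, h3⟩, ?_, by simp⟩
    rw [← htV a]
    show (Ordinal.ToType.toOrd (Ordinal.ToType.mk ⟨ξ, h3⟩)).1 ∈ D (F (t a))
    simpa using h1
  intro a b hab
  ext ξ
  constructor
  · rintro ⟨h1, h2⟩
    rcases lt_or_gt_of_ne hab with hlt | hlt
    · exact key a b (ht a b hlt) ξ h1 h2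
    · exact key b a (ht b a hlt) ξ h2 h1
  · rintro ⟨x, hx, rfl⟩
    constructor
    · have : x ∈ V (t a) := by rw [htV a]; exact hx
      exact this
    · have : x ∈ V (t b) := by rw [htV b]; exact hx
      exact this

/-- **The exact range of the weak Delta-system principle.** For every infinite `κ` and every `μ`:

* the principle for sets with fewer than `μ` elements holds iff `μ ≤ κ` (for `μ = κ` this is
  `Δ(κ)`), and so does its free form;
* the form with Delta-systems holds iff `μ ≤ κ` and `κ ^ ν ≤ κ` for all `ν < μ`; for `μ = κ` this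
  means `κ ^< κ = κ`.

So `Δ(κ)` holds for all `κ`; for singular `κ` one has `κ < κ ^< κ`, and the form with
Delta-systems fails. -/
theorem result (κ : Cardinal.{u}) (hκ : ℵ₀ ≤ κ) :
    (∀ μ, Delta κ μ ↔ μ ≤ κ) ∧ (∀ μ, Free κ μ ↔ μ ≤ κ) ∧
    (∀ μ, DeltaSystem κ μ ↔ μ ≤ κ ∧ ∀ ν < μ, κ ^ ν ≤ κ) ∧
    (DeltaSystem κ κ ↔ κ ^< κ = κ) ∧
    (κ.ord.cof < κ → Delta κ κ ∧ κ < κ ^< κ ∧ ¬ DeltaSystem κ κ) := by
  have hΔ : ∀ μ, Delta κ μ → μ ≤ κ := by
    intro μ h
    by_contra hlt
    exact not_delta hκ (not_le.1 hlt) h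
  have h3 : ∀ μ, DeltaSystem κ μ ↔ μ ≤ κ ∧ ∀ ν < μ, κ ^ ν ≤ κ := by
    intro μ
    constructor
    · intro h
      have hμ : μ ≤ κ := hΔ μ (fun D hD => by
        obtain ⟨F, hF, -⟩ := h D hD
        exact ⟨F, hF⟩)
      refine ⟨hμ, fun ν hν => ?_⟩
      by_contra hlt
      exact not_deltaSystem hκ hν (hν.le.trans hμ) (not_le.1 hlt) h
    · rintro ⟨hμ, h⟩
      exact deltaSystem_of hκ hμ (Cardinal.powerlt_le.2 h)
  have h4 : DeltaSystem κ κ ↔ κ ^< κ = κ := by
    rw [h3 κ]
    constructor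
    · rintro ⟨-, h⟩
      refine le_antisymm (Cardinal.powerlt_le.2 h) ?_
      have h1 : (1 : Cardinal.{u}) < κ := Cardinal.one_lt_aleph0.trans_le hκ
      have h2 := Cardinal.le_powerlt κ h1
      rwa [Cardinal.power_one] at h2
    · intro h
      exact ⟨le_rfl, Cardinal.powerlt_le.1 h.le⟩
  have hd : Delta κ κ := (free_self hκ).delta hκ
  refine ⟨fun μ => ⟨hΔ μ, fun h => ((free_self hκ).mono h).delta hκ⟩,
    fun μ => ⟨fun h => hΔ μ (h.delta hκ), fun h => (free_self hκ).mono h⟩, h3, h4, ?_⟩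
  intro hcof
  have h5 : κ < κ ^< κ := (Cardinal.lt_power_cof_ord hκ).trans_le (Cardinal.le_powerlt κ hcof)
  exact ⟨hd, h5, fun h => h5.ne' (h4.1 h)⟩

end Pool.Agent.Results.MP_028983_lc.ExactRange
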